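import Pool.Agent.Q266.VG.Stm

/-! Project VG: jobs MREL, RELA, RELQ, RELT. -/

namespace Pool.Agent.Q238.VG

open Pool.Agent.Q266.VG
open scoped commutatorElement

theorem comm_mem {G : Type} [Group G] (x y : G) : ⁅x, y⁆ ∈ gam G 1 :=
  Subgroup.commutator_mem_commutator (Subgroup.mem_top x) (Subgroup.mem_top y)

instance gam_normal (G : Type) [Group G] (n : ℕ) : (gam G n).Normal := by
  unfold gam; infer_instance

theorem conj_mem_gam {G : Type} [Group G] (n : ℕ) {u : G} (hu : u ∈ gam G n) (y : G) :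
    y * u * y⁻¹ ∈ gam G n := (gam_normal G n).conj_mem u hu y

theorem comm_mem_succ {G : Type} [Group G] (n : ℕ) {u : G} (hu : u ∈ gam G n) (y : G) :
    ⁅u, y⁆ ∈ gam G (n + 1) :=
  Subgroup.commutator_mem_commutator hu (Subgroup.mem_top y)

/-- the commutator with a conjugate -/
theorem comm_eq {G : Type} [Group G] (u y : G) : ⁅u, y⁆ = u * (y * u * y⁻¹)⁻¹ := by
  rw [commutatorElement_def]; group

theorem mrel : S_MREL := by
  intro G _ hc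
  let _inst : CommGroup (gam G 1) :=
    { (inferInstance : Group (gam G 1)) with
      mul_comm := fun x y => Subtype.ext (hc x x.2 y y.2) }
  refine ⟨?_, ?_, ?_⟩
  · intro u hu y z
    have hW : z * (y * u * y⁻¹) * z⁻¹ = y * (z * u * z⁻¹) * y⁻¹ := by
      have h1 := hc _ (comm_mem z⁻¹ y⁻¹) u hu
      have h2 : z * (y * u * y⁻¹) * z⁻¹ = y * z * (⁅z⁻¹, y⁻¹⁆ * u) * ⁅z⁻¹, y⁻¹⁆⁻¹ * (y * z)⁻¹ := by
        rw [commutatorElement_def]; group
      rw [h2, h1]; group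
    have e1 : ⁅⁅u, y⁆, z⁆ = u * (y * u * y⁻¹)⁻¹ *
        ((z * (y * u * y⁻¹) * z⁻¹) * (z * u * z⁻¹)⁻¹) := by
      rw [commutatorElement_def, commutatorElement_def]; group
    have e2 : ⁅⁅u, z⁆, y⁆ = u * (z * u * z⁻¹)⁻¹ *
        ((y * (z * u * z⁻¹) * y⁻¹) * (y * u * y⁻¹)⁻¹) := by
      rw [commutatorElement_def, commutatorElement_def]; group
    rw [e1, e2, hW]
    have hY := conj_mem_gam 1 hu y
    have hZ := conj_mem_gam 1 hu z
    have hV := conj_mem_gam 1 hZ y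
    have key : ∀ a b c d : gam G 1, a * b⁻¹ * (c * d⁻¹) = a * d⁻¹ * (c * b⁻¹) := by
      intro a b c d
      simp only [mul_assoc, mul_left_comm, mul_comm]
    exact congrArg Subtype.val (key ⟨u, hu⟩ ⟨_, hY⟩ ⟨_, hV⟩ ⟨_, hZ⟩)
  · intro u hu v hv y
    have e1 : ⁅u * v, y⁆ = u * ⁅v, y⁆ * u⁻¹ * ⁅u, y⁆ := by
      rw [commutatorElement_def, commutatorElement_def, commutatorElement_def]; group
    rw [e1, hc u hu _ (comm_mem v y), mul_inv_cancel_right]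
    exact hc _ (comm_mem v y) _ (comm_mem u y)
  · intro a b c
    have h := commutatorElement_mul_left_mul a b c
    have x1 : ⁅a * b, c⁆ = a * ⁅b, c⁆ * a⁻¹ * ⁅c, a⁆⁻¹ := by
      simp only [commutatorElement_def]; group
    have x2 : ⁅c * a, b⁆ = c * ⁅a, b⁆ * c⁻¹ * ⁅b, c⁆⁻¹ := by
      simp only [commutatorElement_def]; group
    have x3 : ⁅b * c, a⁆ = b * ⁅c, a⁆ * b⁻¹ * ⁅a, b⁆⁻¹ := by
      simp only [commutatorElement_def]; group
    rw [x1, x2, x3] at h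
    rw [comm_eq ⁅a, b⁆ c, comm_eq ⁅b, c⁆ a, comm_eq ⁅c, a⁆ b]
    have hP := comm_mem a b
    have hQ := comm_mem b c
    have hR := comm_mem c a
    have hA := conj_mem_gam 1 hQ a
    have hB := conj_mem_gam 1 hR b
    have hC := conj_mem_gam 1 hP c
    have key : ∀ P Q R A B C : gam G 1,
        A * R⁻¹ * (C * Q⁻¹) * (B * P⁻¹) = 1 → P * C⁻¹ * (Q * A⁻¹) * (R * B⁻¹) = 1 := by
      intro P Q R A B C h
      have h' := congrArg (fun t => t⁻¹) h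
      simp only [mul_inv, inv_inv, inv_one] at h'
      rw [← h']
      simp only [mul_assoc, mul_left_comm, mul_comm]
    exact congrArg Subtype.val
      (key ⟨_, hP⟩ ⟨_, hQ⟩ ⟨_, hR⟩ ⟨_, hA⟩ ⟨_, hB⟩ ⟨_, hC⟩ (Subtype.ext h))

/-! ## RELA -/

section
variable {G : Type} [Group G] (x : ℕ → G)

/-- the fold -/
def fo (Z : List ℕ) (u : G) : G := Z.foldl (fun u k => ⁅u, x k⁆) u

theorem fo_mem (Z : List ℕ) : ∀ u : G, u ∈ gam G 1 → fo x Z u ∈ gam G 1 := by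
  induction Z with
  | nil => intro u hu; exact hu
  | cons k Z ih => intro u _; exact ih _ (comm_mem u (x k))

theorem fo_one (Z : List ℕ) : fo x Z 1 = 1 := by
  induction Z with
  | nil => rfl
  | cons k Z ih =>
    show fo x Z ⁅1, x k⁆ = 1
    rw [commutatorElement_one_left, ih]

theorem fo_mul
    (h2 : ∀ u ∈ gam G 1, ∀ v ∈ gam G 1, ∀ y : G, ⁅u * v, y⁆ = ⁅u, y⁆ * ⁅v, y⁆) (Z : List ℕ) :
    ∀ u : G, u ∈ gam G 1 → ∀ v : G, v ∈ gam G 1 → fo x Z (u * v) = fo x Z u * fo x Z v := by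
  induction Z with
  | nil => intro u _ v _; rfl
  | cons k Z ih =>
    intro u hu v hv
    show fo x Z ⁅u * v, x k⁆ = fo x Z ⁅u, x k⁆ * fo x Z ⁅v, x k⁆
    rw [h2 u hu v hv, ih _ (comm_mem _ _) _ (comm_mem _ _)]

theorem fo_perm (h1 : ∀ u ∈ gam G 1, ∀ y z : G, ⁅⁅u, y⁆, z⁆ = ⁅⁅u, z⁆, y⁆) {Z Z' : List ℕ}
    (h : Z.Perm Z') : ∀ u : G, u ∈ gam G 1 → fo x Z u = fo x Z' u := by
  induction h with
  | nil => intro u _; rfl
  | cons k _ ih => intro u _; exact ih _ (comm_mem u (x k))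
  | swap a b l =>
    intro u hu
    show fo x l ⁅⁅u, x b⁆, x a⁆ = fo x l ⁅⁅u, x a⁆, x b⁆
    rw [h1 u hu]
  | trans _ _ ih1 ih2 => intro u hu; exact (ih1 u hu).trans (ih2 u hu)

end

/-- if `⁅g, h⁆` is central then `⁅g^n, h⁆ = ⁅g, h⁆^n` -/
theorem comm_pow {G : Type} [Group G] {g h : G} (hc : ∀ t : G, t * ⁅g, h⁆ = ⁅g, h⁆ * t) (n : ℕ) :
    ⁅g ^ n, h⁆ = ⁅g, h⁆ ^ n := by
  induction n with
  | zero => simp
  | succ n ih =>
    have e1 : ⁅g ^ (n + 1), h⁆ = g ^ n * ⁅g, h⁆ * (g ^ n)⁻¹ * ⁅g ^ n, h⁆ := by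
      rw [pow_succ]
      simp only [commutatorElement_def]; group
    rw [e1, hc, mul_inv_cancel_right, ih, pow_succ']

theorem comm_eq_one_of_center {G : Type} [Group G] {g : G} (hg : g ∈ Subgroup.center G) (h : G) :
    ⁅g, h⁆ = 1 := by
  rw [commutatorElement_eq_one_iff_mul_comm]
  exact ((Subgroup.mem_center_iff.1 hg) h).symm

theorem rela (hM : S_MREL) : S_RELA := by
  intro G _ x hc
  obtain ⟨h1, h2, h3⟩ := hM G hc
  refine ⟨?_, ?_, ?_, ?_⟩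
  · intro y z Z Z' h
    exact fo_perm x h1 h _ (comm_mem _ _)
  · intro y z Z
    show fo x Z ⁅x z, x y⁆ = (fo x Z ⁅x y, x z⁆)⁻¹
    rw [eq_inv_iff_mul_eq_one, ← fo_mul x h2 Z _ (comm_mem _ _) _ (comm_mem _ _),
      ← commutatorElement_inv (x y) (x z), inv_mul_cancel, fo_one]
  · intro a b c Z
    show fo x Z ⁅⁅x a, x b⁆, x c⁆ * fo x Z ⁅⁅x b, x c⁆, x a⁆ * fo x Z ⁅⁅x c, x a⁆, x b⁆ = 1
    rw [← fo_mul x h2 Z _ (comm_mem _ _) _ (comm_mem _ _),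
      ← fo_mul x h2 Z _ (mul_mem (comm_mem _ _) (comm_mem _ _)) _ (comm_mem _ _), h3, fo_one]
  · intro y z Z h7 hbot
    rcases List.eq_nil_or_concat Z with rfl | ⟨Z', k, rfl⟩
    · show ⁅x y, x z⁆ ^ 7 = 1
      have hcen : ∀ t : G, t * ⁅x y, x z⁆ = ⁅x y, x z⁆ * t := by
        intro t
        have hm : ⁅⁅x y, x z⁆, t⁆ ∈ gam G 2 := comm_mem_succ 1 (comm_mem _ _) t
        have hb : gam G 2 = ⊥ := hbot
        rw [hb, Subgroup.mem_bot, commutatorElement_eq_one_iff_mul_comm] at hm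
        exact hm.symm
      rw [← comm_pow hcen, comm_eq_one_of_center (h7 _)]
    · have hE : E x y z (Z'.concat k) = ⁅fo x Z' ⁅x y, x z⁆, x k⁆ := by
        unfold E fo
        rw [List.concat_eq_append, List.foldl_append]
        rfl
      rw [hE]
      set u := fo x Z' ⁅x y, x z⁆ with hu
      have hum : u ∈ gam G 1 := fo_mem x Z' _ (comm_mem _ _)
      have hpow : ∀ n : ℕ, ⁅u ^ n, x k⁆ = ⁅u, x k⁆ ^ n := by
        intro n
        induction n with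
        | zero => simp
        | succ n ih =>
          rw [pow_succ, h2 _ (pow_mem hum n) _ hum, ih, pow_succ]
      rw [← hpow, comm_eq_one_of_center (h7 _)]

/-! ## RELQ -/

theorem gam_one_le {G : Type} [Group G] (hD : D2 G ≤ Subgroup.center G) {g h : G}
    (hg : g ∈ gam G 1) (hh : h ∈ gam G 1) (t : G) : t * ⁅g, h⁆ = ⁅g, h⁆ * t := by
  have : ⁅g, h⁆ ∈ D2 G := by
    have h1 : g ∈ derivedSeries G 1 := hg
    have h2 : h ∈ derivedSeries G 1 := hh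
    exact Subgroup.commutator_mem_commutator h1 h2
  exact (Subgroup.mem_center_iff.1 (hD this)) t

section
variable {G : Type} [Group G] (hD : D2 G ≤ Subgroup.center G)
include hD

theorem bil_inv_left {g h : G} (hg : g ∈ gam G 1) (hh : h ∈ gam G 1) : ⁅g⁻¹, h⁆ = ⁅g, h⁆⁻¹ := by
  have e : ⁅g⁻¹, h⁆ = g⁻¹ * ⁅h, g⁆ * g := by simp only [commutatorElement_def]; group
  rw [e, gam_one_le hD hh hg, inv_mul_cancel_right, commutatorElement_inv]

theorem bil_inv_right {g h : G} (hg : g ∈ gam G 1) (hh : h ∈ gam G 1) : ⁅g, h⁻¹⁆ = ⁅g, h⁆⁻¹ := by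
  have e : ⁅g, h⁻¹⁆ = h⁻¹ * ⁅h, g⁆ * h := by simp only [commutatorElement_def]; group
  rw [e, gam_one_le hD hh hg, inv_mul_cancel_right, commutatorElement_inv]

theorem bil_left {g g' h : G} (hg : g ∈ gam G 1) (hg' : g' ∈ gam G 1) (hh : h ∈ gam G 1) :
    ⁅g * g', h⁆ = ⁅g, h⁆ * ⁅g', h⁆ := by
  have e : ⁅g * g', h⁆ = g * ⁅g', h⁆ * g⁻¹ * ⁅g, h⁆ := by simp only [commutatorElement_def]; group
  rw [e, gam_one_le hD hg' hh, mul_inv_cancel_right, gam_one_le hD hg hh]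

theorem bil_right {g h h' : G} (hg : g ∈ gam G 1) (hh : h ∈ gam G 1) (hh' : h' ∈ gam G 1) :
    ⁅g, h * h'⁆ = ⁅g, h⁆ * ⁅g, h'⁆ := by
  have e : ⁅g, h * h'⁆ = ⁅g, h⁆ * (h * ⁅g, h'⁆ * h⁻¹) := by
    simp only [commutatorElement_def]; group
  rw [e, gam_one_le hD hg hh', mul_inv_cancel_right]

theorem bil_seven (h7 : ∀ g : G, g ^ 7 ∈ Subgroup.center G) {g h : G} (hg : g ∈ gam G 1)
    (hh : h ∈ gam G 1) : ⁅g, h⁆ ^ 7 = 1 := by
  rw [← comm_pow (gam_one_le hD hg hh), comm_eq_one_of_center (h7 _)]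

end

theorem relq : S_RELQ := by
  intro G _ x hD h7 a b c d
  refine ⟨?_, ?_, ?_, ?_⟩
  · show ⁅⁅x b, x a⁆, ⁅x c, x d⁆⁆ = ⁅⁅x a, x b⁆, ⁅x c, x d⁆⁆⁻¹
    rw [← commutatorElement_inv (x a) (x b)]
    exact bil_inv_left hD (comm_mem _ _) (comm_mem _ _)
  · show ⁅⁅x a, x b⁆, ⁅x d, x c⁆⁆ = ⁅⁅x a, x b⁆, ⁅x c, x d⁆⁆⁻¹
    rw [← commutatorElement_inv (x c) (x d)]
    exact bil_inv_right hD (comm_mem _ _) (comm_mem _ _)
  · show ⁅⁅x c, x d⁆, ⁅x a, x b⁆⁆ = ⁅⁅x a, x b⁆, ⁅x c, x d⁆⁆⁻¹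
    exact (commutatorElement_inv _ _).symm
  · exact bil_seven hD h7 (comm_mem _ _) (comm_mem _ _)

/-! ## RELT -/

theorem relt (hL : S_LCS) (hM : S_MREL) : S_RELT := by
  intro G _ x hD h7 h5 a b c d e
  have hk : ∀ u v w : G, ⁅⁅u, v⁆, w⁆ ∈ gam G 1 := fun u v w => comm_mem _ _
  refine ⟨?_, ?_, ?_, ?_⟩
  · show ⁅⁅x b, x a⁆, ⁅⁅x c, x d⁆, x e⁆⁆ = ⁅⁅x a, x b⁆, ⁅⁅x c, x d⁆, x e⁆⁆⁻¹
    rw [← commutatorElement_inv (x a) (x b)]
    exact bil_inv_left hD (comm_mem _ _) (comm_mem _ _)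
  · show ⁅⁅x c, x d⁆, ⁅⁅x a, x b⁆, x e⁆⁆ = ⁅⁅x a, x b⁆, ⁅⁅x c, x d⁆, x e⁆⁆
    have hg := comm_mem (x a) (x b)
    have hh := comm_mem (x c) (x d)
    set g := ⁅x a, x b⁆ with hgd
    set h := ⁅x c, x d⁆ with hhd
    set t := x e with ht
    have c1 : t * ⁅g, h⁆ * t⁻¹ = ⁅⁅t, g⁆ * g, ⁅t, h⁆ * h⁆ := by
      simp only [commutatorElement_def]; group
    rw [gam_one_le hD hg hh, mul_inv_cancel_right,
      bil_left hD (comm_mem _ _) hg (mul_mem (comm_mem _ _) hh),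
      bil_right hD (comm_mem _ _) (comm_mem _ _) hh,
      bil_right hD hg (comm_mem _ _) hh] at c1
    have hb : ⁅⁅t, g⁆, ⁅t, h⁆⁆ = 1 := by
      have m1 : ⁅t, g⁆ ∈ gam G 2 := by
        rw [← commutatorElement_inv]; exact inv_mem (comm_mem_succ 1 hg t)
      have m2 : ⁅t, h⁆ ∈ gam G 2 := by
        rw [← commutatorElement_inv]; exact inv_mem (comm_mem_succ 1 hh t)
      have m3 := hL G 2 2 (Subgroup.commutator_mem_commutator m1 m2)
      have m4 : ⁅⁅t, g⁆, ⁅t, h⁆⁆ ∈ gam G 5 := m3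
      rwa [h5, Subgroup.mem_bot] at m4
    rw [hb, one_mul, ← mul_assoc] at c1
    have c2 : ⁅⁅t, g⁆, h⁆ * ⁅g, ⁅t, h⁆⁆ = 1 :=
      mul_right_cancel (b := ⁅g, h⁆) (by rw [one_mul]; exact c1.symm)
    rw [← commutatorElement_inv g t, ← commutatorElement_inv h t,
      bil_inv_left hD (comm_mem _ _) hh, bil_inv_right hD hg (comm_mem _ _),
      commutatorElement_inv, mul_inv_eq_one] at c2
    exact c2
  · show ⁅⁅x a, x b⁆, ⁅⁅x c, x d⁆, x e⁆⁆ * ⁅⁅x a, x b⁆, ⁅⁅x d, x e⁆, x c⁆⁆ *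
      ⁅⁅x a, x b⁆, ⁅⁅x e, x c⁆, x d⁆⁆ = 1
    rw [← bil_right hD (comm_mem _ _) (comm_mem _ _) (comm_mem _ _),
      ← bil_right hD (comm_mem _ _) (mul_mem (comm_mem _ _) (comm_mem _ _)) (comm_mem _ _)]
    have hJ : ⁅⁅x c, x d⁆, x e⁆ * ⁅⁅x d, x e⁆, x c⁆ * ⁅⁅x e, x c⁆, x d⁆ ∈ gam G 3 := by
      have hq := (hM (G ⧸ gam G 3) (by
        intro p hp q hq
        have hmap : (gam G 1).map (QuotientGroup.mk' (gam G 3)) = gam (G ⧸ gam G 3) 1 := by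
          unfold gam
          rw [Subgroup.map_lowerCentralSeries,
            Subgroup.map_top_of_surjective _ (QuotientGroup.mk'_surjective _)]
        rw [← hmap] at hp hq
        obtain ⟨p', hp', rfl⟩ := hp
        obtain ⟨q', hq', rfl⟩ := hq
        rw [← commutatorElement_eq_one_iff_mul_comm, ← map_commutatorElement]
        exact (QuotientGroup.eq_one_iff _).2
          (hL G 1 1 (Subgroup.commutator_mem_commutator hp' hq')))).2.2
        (QuotientGroup.mk' _ (x c)) (QuotientGroup.mk' _ (x d)) (QuotientGroup.mk' _ (x e))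
      simp only [← map_commutatorElement, ← map_mul] at hq
      exact (QuotientGroup.eq_one_iff _).1 hq
    have hz := hL G 1 3 (Subgroup.commutator_mem_commutator (comm_mem (x a) (x b)) hJ)
    have hz' : ⁅⁅x a, x b⁆, ⁅⁅x c, x d⁆, x e⁆ * ⁅⁅x d, x e⁆, x c⁆ * ⁅⁅x e, x c⁆, x d⁆⁆ ∈ gam G 5 :=
      hz
    rwa [h5, Subgroup.mem_bot] at hz'
  · exact bil_seven hD h7 (comm_mem _ _) (comm_mem _ _)

end Pool.Agent.Q238.VG
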